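import Pool.Agent.helper25.OAU.Spec

/-! # Project oau (MP_d58e27_lc): row OPW -/

set_option autoImplicit false

namespace Pool.Agent.helper25.OAU

open N68a2faeb N793a5b8e
open Pool.Agent.helper56.SGE hiding Pt
open Pool.Agent.helper56.SGE.QSys
open Pool.Agent.helper98.Tsei Pool.Agent.H54.PT
open Pool.Agent.helper14.AU

theorem OPW (hOPD : OPD_stmt) : OPW_stmt := by
  obtain ⟨p, c, hp⟩ := exists_prog hOPD (fun b => [true, b, false])
  refine isPolyTime_of_prog (fun x : List Bool => code (sysW' x)) p c (fun x => ?_)
  have h := hp x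
  rw [bitEncode_word]
  exact h

end Pool.Agent.helper25.OAU
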